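import Pool.Agent.Helper15.UL.GoalsE

/-!
# MP_57a173_lc: part E, CL2
-/

noncomputable section

namespace UL.PkCL2

open UL Pool.Agent.Helper97.Ku NU MeasureTheory

theorem thm : UL.G_REP → UL.G_CL2 := by
  intro hREP I _ _ hHF ι B r ω hω hK2 T
  have h1 : ∃ ρ : ℕ → BA I,
      ¬ pr ω ≤ ⨆ i, (B i ⊓ ⨅ j, iffV (ρ j) ((T j).ev (at2 (r i)))) := by
    by_contra hc
    push Not at hc
    exact hK2 ⟨T, hc⟩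
  obtain ⟨ρ, hρ⟩ := h1
  have h2 : ¬ Fc ω (⨆ i, (B i ⊓ ⨅ j, iffV (ρ j) ((T j).ev (at2 (r i))))) :=
    fun h => hρ (pr_le h)
  obtain ⟨g, hg, hF⟩ := Fc.exists_compl hω h2
  obtain ⟨χ, hχ, Z, hZ, hD⟩ := hREP I hHF ℕ ρ (ω ∘ g) (hω.comp hg)
  exact ⟨g ∘ χ, Z, hg.comp hχ, hZ, ρ, hD, hF.comp hχ⟩

end UL.PkCL2
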